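import Pool.Agent.Helper26.LU.Goals

/-! # Project LU, packet M2 -/

set_option autoImplicit false

namespace Pool.Agent.Helper86.LU

open MeasureTheory Matrix Real
open Pool.Agent.Helper26.LU

/-- `h (R w)` is continuous in `R`. -/
theorem cont_h {h : V → ℝ} (hh : ContinuousOn h sph) {w : V} (hw : w ∈ sph) :
    Continuous (fun R : ↥SO3 => h (R.1 *ᵥ w)) := by
  have h1 : Continuous (fun R : ↥SO3 => R.1 *ᵥ w) :=
    (continuous_subtype_val (p := fun R : M3 => R ∈ SO3)).matrix_mulVec continuous_const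
  exact hh.comp_continuous h1 fun R => mulVec_sph R.2 hw

theorem cont_entry (i j : Fin 3) : Continuous (fun R : ↥SO3 => R.1 i j) :=
  (continuous_subtype_val (p := fun R : M3 => R ∈ SO3)).matrix_elem i j

theorem cont_mon {n : ℕ} (p q : Fin n → Fin 3) :
    Continuous (fun R : ↥SO3 => ∏ i, R.1 (p i) (q i)) :=
  continuous_finsetProd _ fun i _ => cont_entry (p i) (q i)

/-- Continuous functions on the rotation group are integrable. -/
theorem integrable_cont {μ : Measure ↥SO3} (hμ : Haar3 μ) {f : ↥SO3 → ℝ} (hf : Continuous f) :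
    Integrable f μ := by
  have := hμ.prob
  exact hf.integrable_of_hasCompactSupport (HasCompactSupport.of_compactSpace f)

/-- Right invariance. -/
theorem int_right {μ : Measure ↥SO3} (hμ : Haar3 μ) (S : ↥SO3) {f : ↥SO3 → ℝ}
    (hf : Continuous f) : ∫ R, f (R * S) ∂μ = ∫ R, f R ∂μ := by
  have hm : Measurable (fun R : ↥SO3 => R * S) := (continuous_mul_const S).measurable
  have h1 := MeasureTheory.integral_map (μ := μ) hm.aemeasurable
    (f := f) (hf.aestronglyMeasurable)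
  rw [hμ.inv S] at h1
  exact h1.symm

theorem prod_abs_le {n : ℕ} {R : M3} (hR : R ∈ SO3) (p q : Fin n → Fin 3) :
    |∏ i, R (p i) (q i)| ≤ 1 := by
  rw [Finset.abs_prod]
  exact Finset.prod_le_one (fun i _ => abs_nonneg _) fun i _ => SO3_entry_le hR _ _

theorem Rot_cont : Continuous (fun x : ℝ => Rot x) := by
  refine continuous_matrix fun i j => ?_
  fin_cases i <;> fin_cases j <;> simp [Rot] <;> fun_prop

/-- The case of the axis. -/
theorem axis {μ : Measure ↥SO3} (hμ : Haar3 μ) {N n : ℕ} (p q : Fin n → Fin 3)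
    (c : Idx N → ℝ)
    (hc : ∀ R ∈ SO3, (∫ x in (0 : ℝ)..2 * π, ∏ i, (R * Rot x) (p i) (q i)) / (2 * π) =
      ev c (R *ᵥ e 0))
    {h : V → ℝ} {τ : ℝ} (hh : ContinuousOn h sph)
    (hτ : ∀ α : Idx N, |∫ R : ↥SO3, h (R.1 *ᵥ e 0) * mon α (R.1 *ᵥ e 0) ∂μ| ≤ τ) :
    |∫ R : ↥SO3, (∏ i, R.1 (p i) (q i)) * h (R.1 *ᵥ e 0) ∂μ| ≤ (∑ α, |c α|) * τ := by
  have := hμ.prob
  have hpi := Real.pi_pos
  have hH := cont_h hh (e_sph 0)
  -- invariance
  have e1 : ∀ x : ℝ, ∫ R : ↥SO3, (∏ i, (R.1 * Rot x) (p i) (q i)) * h (R.1 *ᵥ e 0) ∂μ =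
      ∫ R : ↥SO3, (∏ i, R.1 (p i) (q i)) * h (R.1 *ᵥ e 0) ∂μ := by
    intro x
    have hfc : Continuous (fun R : ↥SO3 => (∏ i, R.1 (p i) (q i)) * h (R.1 *ᵥ e 0)) :=
      (cont_mon p q).mul hH
    rw [← int_right hμ ⟨Rot x, Rot_SO3 x⟩ hfc]
    apply integral_congr_ae
    filter_upwards with R
    have h5 : (R * (⟨Rot x, Rot_SO3 x⟩ : ↥SO3)).1 = R.1 * Rot x := rfl
    rw [h5, ← Matrix.mulVec_mulVec, Rot_e0]
  -- Fubini
  obtain ⟨B, hB⟩ : ∃ B : ℝ, ∀ R : ↥SO3, |h (R.1 *ᵥ e 0)| ≤ B := by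
    obtain ⟨B, hB⟩ := isCompact_univ.exists_bound_of_continuousOn hH.continuousOn
    exact ⟨B, fun R => hB R (Set.mem_univ _)⟩
  have hcont : Continuous (fun z : ℝ × ↥SO3 =>
      (∏ i, (z.2.1 * Rot z.1) (p i) (q i)) * h (z.2.1 *ᵥ e 0)) := by
    refine Continuous.mul (continuous_finsetProd _ fun i _ => ?_)
      (hH.comp continuous_snd)
    exact (((continuous_subtype_val (p := fun R : M3 => R ∈ SO3)).comp
      continuous_snd).matrix_mul (Rot_cont.comp continuous_fst)).matrix_elem _ _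
  have hint : Integrable (Function.uncurry (fun (x : ℝ) (R : ↥SO3) =>
      (∏ i, (R.1 * Rot x) (p i) (q i)) * h (R.1 *ᵥ e 0)))
      ((volume.restrict (Set.Ioc 0 (2 * π))).prod μ) := by
    have : IsFiniteMeasure (volume.restrict (Set.Ioc 0 (2 * π))) := by
      constructor
      rw [Measure.restrict_apply_univ, Real.volume_Ioc]
      exact ENNReal.ofReal_lt_top
    refine Integrable.of_bound (hcont.aestronglyMeasurable) B ?_
    filter_upwards with z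
    have h1 : |∏ i, (z.2.1 * Rot z.1) (p i) (q i)| ≤ 1 :=
      prod_abs_le (SO3_mul z.2.2 (Rot_SO3 z.1)) p q
    have h2 := hB z.2
    change ‖(∏ i, (z.2.1 * Rot z.1) (p i) (q i)) * h (z.2.1 *ᵥ e 0)‖ ≤ B
    rw [norm_mul, Real.norm_eq_abs, Real.norm_eq_abs]
    calc |∏ i, (z.2.1 * Rot z.1) (p i) (q i)| * |h (z.2.1 *ᵥ e 0)| ≤ 1 * B :=
          mul_le_mul h1 h2 (abs_nonneg _) zero_le_one
      _ = B := one_mul B
  have e2 := MeasureTheory.integral_integral_swap hint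
  have e3 : ∫ R : ↥SO3, (∏ i, R.1 (p i) (q i)) * h (R.1 *ᵥ e 0) ∂μ =
      ∫ R : ↥SO3, ev c (R.1 *ᵥ e 0) * h (R.1 *ᵥ e 0) ∂μ := by
    have h1 : (2 * π) * ∫ R : ↥SO3, (∏ i, R.1 (p i) (q i)) * h (R.1 *ᵥ e 0) ∂μ =
        ∫ x in Set.Ioc 0 (2 * π), ∫ R : ↥SO3,
          (∏ i, (R.1 * Rot x) (p i) (q i)) * h (R.1 *ᵥ e 0) ∂μ := by
      simp only [e1]
      rw [MeasureTheory.setIntegral_const, Measure.real, Real.volume_Ioc, sub_zero,
        ENNReal.toReal_ofReal (by positivity), smul_eq_mul]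
    have h2 : ∀ R : ↥SO3, ∫ x in Set.Ioc 0 (2 * π),
        (∏ i, (R.1 * Rot x) (p i) (q i)) * h (R.1 *ᵥ e 0) =
        (2 * π) * (ev c (R.1 *ᵥ e 0) * h (R.1 *ᵥ e 0)) := by
      intro R
      rw [MeasureTheory.integral_mul_const, ← intervalIntegral.integral_of_le (by positivity),
        ← hc R.1 R.2]
      field_simp
    rw [e2] at h1
    simp only [h2] at h1
    rw [MeasureTheory.integral_const_mul] at h1
    exact mul_left_cancel₀ (by positivity) h1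
  rw [e3]
  have e4 : ∀ R : ↥SO3, ev c (R.1 *ᵥ e 0) * h (R.1 *ᵥ e 0) =
      ∑ α, c α * (h (R.1 *ᵥ e 0) * mon α (R.1 *ᵥ e 0)) := by
    intro R
    rw [ev, Finset.sum_mul]
    apply Finset.sum_congr rfl
    intro α _
    ring
  simp only [e4]
  have hmon : ∀ α : Idx N, Continuous (fun R : ↥SO3 => mon α (R.1 *ᵥ e 0)) := by
    intro α
    have h1 : Continuous (fun R : ↥SO3 => R.1 *ᵥ e 0) :=
      (continuous_subtype_val (p := fun R : M3 => R ∈ SO3)).matrix_mulVec continuous_const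
    have h2 : ∀ i : Fin 3, Continuous (fun R : ↥SO3 => (R.1 *ᵥ e 0) i) := fun i =>
      (continuous_apply i).comp h1
    unfold mon
    exact (((h2 0).pow _).mul ((h2 1).pow _)).mul ((h2 2).pow _)
  have hi : ∀ α ∈ (Finset.univ : Finset (Idx N)), Integrable
      (fun R : ↥SO3 => c α * (h (R.1 *ᵥ e 0) * mon α (R.1 *ᵥ e 0))) μ := fun α _ => by
    have h7 : Continuous (fun R : ↥SO3 => h (R.1 *ᵥ e 0) * mon α (R.1 *ᵥ e 0)) :=
      hH.mul (hmon α)
    exact (integrable_cont hμ h7).const_mul (c α)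
  rw [MeasureTheory.integral_finsetSum _ hi]
  refine (Finset.abs_sum_le_sum_abs _ _).trans ?_
  rw [Finset.sum_mul]
  apply Finset.sum_le_sum
  intro α _
  rw [MeasureTheory.integral_const_mul, abs_mul]
  exact mul_le_mul_of_nonneg_left (hτ α) (abs_nonneg _)

theorem gM2 (h2a : G_M2a) : G_M2 := by
  intro μ hμ N
  have := hμ.prob
  have h0 : ∀ (n : ℕ) (p q : Fin n → Fin 3), ∃ c : Idx N → ℝ, n ≤ N → ∀ R ∈ SO3,
      (∫ x in (0 : ℝ)..2 * π, ∏ i, (R * Rot x) (p i) (q i)) / (2 * π) =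
        ev c (R *ᵥ e 0) := by
    intro n p q
    by_cases hn : n ≤ N
    · obtain ⟨c, hc⟩ := h2a N n hn p q
      exact ⟨c, fun _ => hc⟩
    · exact ⟨0, fun h => absurd h hn⟩
  choose c hc using h0
  have hK0 : ∀ (n : ℕ) (p q : Fin n → Fin 3), 0 ≤ ∑ α, |c n p q α| := fun n p q =>
    Finset.sum_nonneg fun _ _ => abs_nonneg _
  obtain ⟨C₀, hC₀⟩ : ∃ C₀ : ℝ, C₀ = ∑ n ∈ Finset.range (N + 1), ∑ p : Fin n → Fin 3,
    ∑ q : Fin n → Fin 3, ∑ α, |c n p q α| := ⟨_, rfl⟩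
  have hC0 : 0 ≤ C₀ := by
    rw [hC₀]
    exact Finset.sum_nonneg fun n _ => Finset.sum_nonneg fun p _ =>
      Finset.sum_nonneg fun q _ => hK0 n p q
  have hK : ∀ n ≤ N, ∀ p q : Fin n → Fin 3, ∑ α, |c n p q α| ≤ C₀ := by
    intro n hn p q
    calc ∑ α, |c n p q α| ≤ ∑ q : Fin n → Fin 3, ∑ α, |c n p q α| :=
          Finset.single_le_sum (f := fun q => ∑ α, |c n p q α|) (fun q _ => hK0 n p q)
            (Finset.mem_univ q)
      _ ≤ ∑ p : Fin n → Fin 3, ∑ q : Fin n → Fin 3, ∑ α, |c n p q α| :=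
          Finset.single_le_sum (f := fun p => ∑ q : Fin n → Fin 3, ∑ α, |c n p q α|)
            (fun p _ => Finset.sum_nonneg fun q _ => hK0 n p q) (Finset.mem_univ p)
      _ ≤ C₀ := by
          rw [hC₀]
          exact Finset.single_le_sum (f := fun n => ∑ p : Fin n → Fin 3,
            ∑ q : Fin n → Fin 3, ∑ α, |c n p q α|)
            (fun n _ => Finset.sum_nonneg fun p _ => Finset.sum_nonneg fun q _ => hK0 n p q)
            (Finset.mem_range.2 (by omega))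
  refine ⟨3 ^ N * C₀ + 1, by positivity, ?_⟩
  intro h τ hh hτ n hn p q w hw
  have hτ0 : 0 ≤ τ := (abs_nonneg _).trans (hτ ⟨(0, 0, 0), by simp⟩)
  have hax : ∀ k : Fin n → Fin 3,
      |∫ R : ↥SO3, (∏ i, R.1 (p i) (k i)) * h (R.1 *ᵥ e 0) ∂μ| ≤ C₀ * τ := by
    intro k
    exact (axis hμ p k (c n p k) (hc n p k hn) hh hτ).trans
      (mul_le_mul_of_nonneg_right (hK n hn p k) hτ0)
  obtain ⟨B, hB, hBw⟩ := exists_rot hw
  have hH := cont_h hh hw
  have hH0 := cont_h hh (e_sph 0)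
  have hfc : Continuous (fun R : ↥SO3 => (∏ i, R.1 (p i) (q i)) * h (R.1 *ᵥ w)) :=
    (cont_mon p q).mul hH
  rw [← int_right hμ ⟨Bᵀ, SO3_transpose hB⟩ hfc]
  have e1 : ∀ R : ↥SO3, (∏ i, (R * (⟨Bᵀ, SO3_transpose hB⟩ : ↥SO3)).1 (p i) (q i)) *
      h ((R * (⟨Bᵀ, SO3_transpose hB⟩ : ↥SO3)).1 *ᵥ w) =
      ∑ k : Fin n → Fin 3, (∏ i, B (q i) (k i)) *
        ((∏ i, R.1 (p i) (k i)) * h (R.1 *ᵥ e 0)) := by
    intro R
    have h1 : (R * (⟨Bᵀ, SO3_transpose hB⟩ : ↥SO3)).1 = R.1 * Bᵀ := rfl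
    have h2 : (R.1 * Bᵀ) *ᵥ w = R.1 *ᵥ e 0 := by
      rw [← hBw, ← Matrix.mulVec_mulVec, Matrix.mulVec_mulVec _ Bᵀ B, SO3_left hB,
        Matrix.one_mulVec]
    have h3 : ∏ i, (R.1 * Bᵀ) (p i) (q i) =
        ∑ k : Fin n → Fin 3, ∏ i, (R.1 (p i) (k i) * B (q i) (k i)) := by
      have h4 : ∀ i, (R.1 * Bᵀ) (p i) (q i) = ∑ j, R.1 (p i) j * B (q i) j := by
        intro i
        rw [Matrix.mul_apply]
        rfl
      simp only [h4]
      rw [Finset.prod_univ_sum, Fintype.piFinset_univ]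
    rw [h1, h2, h3, Finset.sum_mul]
    apply Finset.sum_congr rfl
    intro k _
    rw [Finset.prod_mul_distrib]
    ring
  have e2 : ∫ R : ↥SO3, (∏ i, (R * (⟨Bᵀ, SO3_transpose hB⟩ : ↥SO3)).1 (p i) (q i)) *
      h ((R * (⟨Bᵀ, SO3_transpose hB⟩ : ↥SO3)).1 *ᵥ w) ∂μ =
      ∑ k : Fin n → Fin 3, (∏ i, B (q i) (k i)) *
        ∫ R : ↥SO3, (∏ i, R.1 (p i) (k i)) * h (R.1 *ᵥ e 0) ∂μ := by
    simp only [e1]
    have hi : ∀ k ∈ (Finset.univ : Finset (Fin n → Fin 3)), Integrable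
        (fun R : ↥SO3 => (∏ i, B (q i) (k i)) *
          ((∏ i, R.1 (p i) (k i)) * h (R.1 *ᵥ e 0))) μ := fun k _ => by
      have h7 : Continuous (fun R : ↥SO3 => (∏ i, R.1 (p i) (k i)) * h (R.1 *ᵥ e 0)) :=
        (cont_mon p k).mul hH0
      exact (integrable_cont hμ h7).const_mul _
    rw [MeasureTheory.integral_finsetSum _ hi]
    apply Finset.sum_congr rfl
    intro k _
    rw [MeasureTheory.integral_const_mul]
  rw [e2]
  calc |∑ k : Fin n → Fin 3, (∏ i, B (q i) (k i)) *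
        ∫ R : ↥SO3, (∏ i, R.1 (p i) (k i)) * h (R.1 *ᵥ e 0) ∂μ|
      ≤ ∑ k : Fin n → Fin 3, |(∏ i, B (q i) (k i)) *
        ∫ R : ↥SO3, (∏ i, R.1 (p i) (k i)) * h (R.1 *ᵥ e 0) ∂μ| :=
        Finset.abs_sum_le_sum_abs _ _
    _ ≤ ∑ _k : Fin n → Fin 3, C₀ * τ := by
        apply Finset.sum_le_sum
        intro k _
        rw [abs_mul]
        calc _ ≤ 1 * (C₀ * τ) :=
              mul_le_mul (prod_abs_le hB q k) (hax k) (abs_nonneg _) zero_le_one
          _ = C₀ * τ := one_mul _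
    _ = 3 ^ n * (C₀ * τ) := by
        rw [Finset.sum_const, nsmul_eq_mul, Finset.card_univ]
        simp
    _ ≤ 3 ^ N * (C₀ * τ) := by
        apply mul_le_mul_of_nonneg_right _ (mul_nonneg hC0 hτ0)
        exact pow_le_pow_right₀ (by norm_num) hn
    _ ≤ (3 ^ N * C₀ + 1) * τ := by
        rw [add_mul, one_mul, mul_assoc]
        linarith

end Pool.Agent.Helper86.LU
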